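import Mathlib

/-!
# A group which is not d-independent although its square is

We construct (in ZFC) a Hausdorff topological Boolean group `G` such that `G × G` is
d-independent but `G` is not.
-/

open Set Cardinal

namespace Pool.Agent.Results.MP_23f360_gt.SquareNotEnough

/-- `G` is d-independent: it is non-trivial and every subgroup of size less than the continuum
meets some countable dense subgroup only in the identity. -/
def DIndependent (G : Type) [AddGroup G] [TopologicalSpace G] : Prop :=
  Nontrivial G ∧ ∀ S : AddSubgroup G, #S < Cardinal.continuum →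
    ∃ D : AddSubgroup G, (D : Set G).Countable ∧ Dense (D : Set G) ∧ S ⊓ D = ⊥

/-- the field with two elements -/
abbrev F : Type := ZMod 2

/-- the reals -/
abbrev R : Type := ℕ → F

/-- finite words -/
abbrev E : Type := ℕ →₀ F

/-- the index set of the recursion -/
abbrev I : Type := (#ℝ).ord.ToType

/-- indices of the new functionals -/
abbrev B : Type := I × Fin 3 × ℕ

/-- the abstract group -/
abbrev V : Type := E × (B →₀ F)

lemma F_cases (a : F) : a = 0 ∨ a = 1 := by
  revert a; decide

lemma mk_Iio_I (ξ : I) : #(Iio ξ) < Cardinal.continuum := by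
  have := Cardinal.mk_Iio_lt ξ (by simp)
  rw [Cardinal.mk_ord_toType] at this
  exact this.trans_eq Cardinal.mk_real

lemma mk_I : #I = Cardinal.continuum := by
  rw [Cardinal.mk_ord_toType, Cardinal.mk_real]

lemma mk_R : #R = Cardinal.continuum := by
  have h : #F = 2 := by
    have := Cardinal.mk_fintype F
    rw [this]
    rfl
  rw [← Cardinal.power_def, h, Cardinal.mk_nat, Cardinal.two_power_aleph0]

instance : Nonempty I := by
  rw [← Cardinal.mk_ne_zero_iff, mk_I]
  exact (Cardinal.aleph0_pos.trans Cardinal.aleph0_lt_continuum).ne'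

/-- the evaluation of a word at a real -/
noncomputable def dot (t : R) : E →ₗ[F] F := Finsupp.linearCombination F t

lemma dot_single (t : R) (k : ℕ) : dot t (Finsupp.single k 1) = t k := by
  simp [dot]

lemma dot_add (t t' : R) (s : E) : dot (t + t') s = dot t s + dot t' s := by
  simp only [dot, Finsupp.linearCombination_apply, Pi.add_apply, smul_add]
  exact Finsupp.sum_add

/-- the unit vector as a real -/
def uv (k : ℕ) : R := fun j => if j = k then 1 else 0

lemma dot_uv (k : ℕ) (s : E) : dot (uv k) s = s k := by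
  rw [dot, Finsupp.linearCombination_apply, Finsupp.sum]
  by_cases hk : k ∈ s.support
  · rw [Finset.sum_eq_single k]
    · simp [uv]
    · intro b _ hb
      simp [uv, hb]
    · intro h
      exact absurd hk h
  · rw [Finset.sum_eq_zero]
    · rw [Finsupp.notMem_support_iff.1 hk]
    · intro b hb
      have : b ≠ k := fun h => hk (h ▸ hb)
      simp [uv, this]

/-! ### Small subgroups -/

lemma mk_closure {A : Type} [AddCommGroup A] (S : Set A) (hS : #S < Cardinal.continuum) :
    #(AddSubgroup.closure S) < Cardinal.continuum := by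
  set G : List (S × ℤ) → A := fun l => (l.map fun p => p.2 • (p.1 : A)).sum with hG
  let K : AddSubgroup A :=
    { carrier := Set.range G
      zero_mem' := ⟨[], by simp [hG]⟩
      add_mem' := by
        rintro _ _ ⟨l, rfl⟩ ⟨l', rfl⟩
        exact ⟨l ++ l', by simp [hG]⟩
      neg_mem' := by
        rintro _ ⟨l, rfl⟩
        refine ⟨l.map fun p => (p.1, -p.2), ?_⟩
        simp only [hG, List.map_map]
        induction l with
        | nil => simp
        | cons a l ih =>
          rw [List.map_cons, List.sum_cons, ih, List.map_cons, List.sum_cons]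
          simp only [Function.comp_apply, neg_smul]
          abel }
  have h1 : AddSubgroup.closure S ≤ K := by
    rw [AddSubgroup.closure_le]
    intro s hs
    exact ⟨[(⟨s, hs⟩, 1)], by simp [hG]⟩
  have h2 : #(AddSubgroup.closure S) ≤ #(Set.range G) := by
    apply Cardinal.mk_le_mk_of_subset
    exact h1
  refine h2.trans_lt (Cardinal.mk_range_le.trans_lt ?_)
  refine (Cardinal.mk_list_le_max _).trans_lt (max_lt Cardinal.aleph0_lt_continuum ?_)
  rw [Cardinal.mk_prod, Cardinal.lift_id, Cardinal.lift_id]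
  refine Cardinal.mul_lt_of_lt Cardinal.aleph0_le_continuum hS ?_
  rw [Cardinal.mk_eq_aleph0]
  exact Cardinal.aleph0_lt_continuum

lemma exists_pt (A : Set R) (hA : #A < Cardinal.continuum) (s : E) :
    ∃ t : R, t ∉ AddSubgroup.closure A ∧ (s ≠ 0 → dot t s = 1) := by
  obtain ⟨k, hk⟩ : ∃ k, s ≠ 0 → s k = 1 := by
    by_cases hs : s = 0
    · exact ⟨0, fun h => absurd hs h⟩
    · obtain ⟨k, hk⟩ := Finsupp.ne_iff.1 hs
      refine ⟨k, fun _ => ?_⟩
      rcases F_cases (s k) with h | h
      · exact absurd h hk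
      · exact h
  have h1 : #(A ∪ {uv k} : Set R) < Cardinal.continuum := by
    refine (Cardinal.mk_union_le _ _).trans_lt
      (Cardinal.add_lt_of_lt Cardinal.aleph0_le_continuum hA ?_)
    rw [Cardinal.mk_singleton]
    exact Cardinal.one_lt_aleph0.trans Cardinal.aleph0_lt_continuum
  have h2 := mk_closure _ h1
  obtain ⟨t, ht⟩ : ∃ t : R, t ∉ AddSubgroup.closure (A ∪ {uv k}) := by
    by_contra hcon
    push Not at hcon
    have h3 : #R ≤ #(AddSubgroup.closure (A ∪ {uv k})) :=
      Cardinal.mk_le_of_injective (f := fun t : R => (⟨t, hcon t⟩ :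
        AddSubgroup.closure (A ∪ {uv k}))) fun t t' h => congrArg Subtype.val h
    rw [mk_R] at h3
    exact absurd h3 (not_le.2 h2)
  have hmono : AddSubgroup.closure A ≤ AddSubgroup.closure (A ∪ {uv k}) :=
    AddSubgroup.closure_mono subset_union_left
  have hu : uv k ∈ AddSubgroup.closure (A ∪ {uv k}) :=
    AddSubgroup.subset_closure (Or.inr rfl)
  rcases F_cases (dot t s) with h | h
  · refine ⟨t + uv k, fun h3 => ht ?_, fun hs => ?_⟩
    · have := AddSubgroup.sub_mem _ (hmono h3) hu
      rwa [add_sub_cancel_right] at this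
    · rw [dot_add, h, dot_uv, hk hs, zero_add]
  · exact ⟨t, fun h3 => ht (hmono h3), fun _ => h⟩

/-! ### Tasks -/

/-- codes for tasks -/
abbrev Task : Type := (ℕ → B × E) × E

open Classical in
/-- the assignment coded by a sequence -/
noncomputable def decode (q : ℕ → B × E) (b : B) : E :=
  if h : ∃ n, (q n).1 = b then (q h.choose).2 else 0

lemma decode_eq_zero {q : ℕ → B × E} {b : B} (h : ¬ ∃ n, (q n).1 = b) : decode q b = 0 := by
  unfold decode
  rw [dif_neg h]

lemma exists_code (L : B → E) (S : Set B) (hS : S.Countable) (hL : ∀ b ∉ S, L b = 0) :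
    ∃ q, decode q = L := by
  classical
  obtain ⟨b₀⟩ : Nonempty B := inferInstance
  obtain ⟨f, hf⟩ := (hS.insert b₀).exists_eq_range (insert_nonempty _ _)
  refine ⟨fun n => (f n, L (f n)), ?_⟩
  funext b
  unfold decode
  split_ifs with h
  · have := h.choose_spec
    simp only at this ⊢
    rw [this]
  · rw [hL b]
    intro hb
    apply h
    have : b ∈ range f := by rw [← hf]; exact Or.inr hb
    obtain ⟨n, hn⟩ := this
    exact ⟨n, hn⟩

lemma mk_Task : #Task ≤ #I := by
  have hI : #I = Cardinal.continuum := mk_I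
  have hE : #E ≤ Cardinal.continuum := by
    have : #E = ℵ₀ := Cardinal.mk_eq_aleph0 E
    rw [this]
    exact Cardinal.aleph0_le_continuum
  have hB : #B ≤ Cardinal.continuum := by
    have h1 : #(Fin 3 × ℕ) ≤ Cardinal.continuum := by
      rw [Cardinal.mk_eq_aleph0]
      exact Cardinal.aleph0_le_continuum
    rw [Cardinal.mk_prod, Cardinal.lift_id, Cardinal.lift_id, hI]
    refine (mul_le_mul' le_rfl h1).trans ?_
    rw [Cardinal.continuum_mul_self]
  have hBE : #(B × E) ≤ Cardinal.continuum := by
    rw [Cardinal.mk_prod, Cardinal.lift_id, Cardinal.lift_id]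
    refine (mul_le_mul' hB hE).trans ?_
    rw [Cardinal.continuum_mul_self]
  have h3 : #(ℕ → B × E) ≤ Cardinal.continuum := by
    rw [← Cardinal.power_def, Cardinal.mk_nat]
    refine (Cardinal.power_le_power_right hBE).trans ?_
    rw [Cardinal.continuum_power_aleph0]
  rw [hI, Cardinal.mk_prod, Cardinal.lift_id, Cardinal.lift_id]
  refine (mul_le_mul' h3 hE).trans ?_
  rw [Cardinal.continuum_mul_self]

lemma exists_enum : ∃ ℓ : I → Task, Function.Surjective ℓ := by
  obtain ⟨e⟩ := mk_Task
  have : Nonempty Task := ⟨(fun _ => ((Classical.arbitrary I, 0, 0), 0), 0)⟩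
  exact ⟨Function.invFun e, Function.invFun_surjective e.injective⟩

/-- the enumeration of all tasks -/
noncomputable def ℓ : I → Task := exists_enum.choose

lemma ℓ_surj : Function.Surjective ℓ := exists_enum.choose_spec

/-- the assignment used at stage `α` -/
noncomputable def L (α : I) : B → E := decode (ℓ α).1

/-- the reals of a block at a stage -/
noncomputable def rho (t : R) (α : I) (ξ : I) (j : Fin 3) : R := fun k => dot t (L α (ξ, j, k))

/-- the forbidden generators -/
def Gen (α : I) (t : Iio α → R) : Set R :=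
  Set.range t ∪ Set.range fun p : Iio α × ℕ =>
    rho (t p.1) p.1 ((ℓ p.1).1 p.2).1.1 ((ℓ p.1).1 p.2).1.2.1

lemma mk_Gen (α : I) (t : Iio α → R) : #(Gen α t) < Cardinal.continuum := by
  refine (Cardinal.mk_union_le _ _).trans_lt
    (Cardinal.add_lt_of_lt Cardinal.aleph0_le_continuum ?_ ?_)
  · exact Cardinal.mk_range_le.trans_lt (mk_Iio_I α)
  · refine Cardinal.mk_range_le.trans_lt ?_
    rw [Cardinal.mk_prod, Cardinal.lift_id, Cardinal.lift_id, Cardinal.mk_nat]
    exact Cardinal.mul_lt_of_lt Cardinal.aleph0_le_continuum (mk_Iio_I α)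
      Cardinal.aleph0_lt_continuum

/-- the chosen reals -/
noncomputable def tt : I → R :=
  WellFounded.fix (C := fun _ => R) (wellFounded_lt (α := I)) fun α prev =>
    (exists_pt _ (mk_Gen α fun j : Iio α => prev j j.2) (ℓ α).2).choose

lemma tt_spec (α : I) : tt α ∉ AddSubgroup.closure (Gen α fun j : Iio α => tt j) ∧
    ((ℓ α).2 ≠ 0 → dot (tt α) (ℓ α).2 = 1) := by
  have h : tt α = (exists_pt _ (mk_Gen α fun j : Iio α => tt j) (ℓ α).2).choose := by
    unfold tt
    rw [WellFounded.fix_eq]
  rw [h]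
  exact (exists_pt _ (mk_Gen α fun j : Iio α => tt j) (ℓ α).2).choose_spec

/-- the closed-off group before stage `α` -/
noncomputable def M (α : I) : AddSubgroup R := AddSubgroup.closure (Gen α fun j : Iio α => tt j)

lemma tt_notMem (α : I) : tt α ∉ M α := (tt_spec α).1

lemma tt_mem {α β : I} (h : β < α) : tt β ∈ M α :=
  AddSubgroup.subset_closure (Or.inl ⟨⟨β, h⟩, rfl⟩)

lemma rho_mem {α β : I} (h : β < α) (ξ : I) (j : Fin 3) : rho (tt β) β ξ j ∈ M α := by
  by_cases hn : ∃ n, ∃ k, ((ℓ β).1 n).1 = (ξ, j, k)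
  · obtain ⟨n, k, hnk⟩ := hn
    refine AddSubgroup.subset_closure (Or.inr ⟨(⟨β, h⟩, n), ?_⟩)
    simp only [hnk]
  · have : rho (tt β) β ξ j = 0 := by
      funext k
      unfold rho L
      rw [decode_eq_zero, map_zero]
      · rfl
      · rintro ⟨n, hnk⟩
        exact hn ⟨n, k, hnk⟩
    rw [this]
    exact zero_mem _

/-! ### The group -/

/-- the linear extension of the assignment -/
noncomputable def Lam (α : I) : (B →₀ F) →ₗ[F] E := Finsupp.linearCombination F (L α)

/-- the representation of the abstract group by functions -/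
noncomputable def Phi : V →ₗ[F] (I → F) :=
  LinearMap.pi fun α => (dot (tt α)).comp
    (LinearMap.fst F E (B →₀ F) + (Lam α).comp (LinearMap.snd F E (B →₀ F)))

lemma Phi_apply (v : V) (α : I) : Phi v α = dot (tt α) (v.1 + Lam α v.2) := rfl

lemma Phi_injective : Function.Injective Phi := by
  classical
  rw [← LinearMap.ker_eq_bot, LinearMap.ker_eq_bot']
  intro v hv
  by_contra hne
  by_cases h2 : v.2 = 0
  · have h1 : v.1 ≠ 0 := fun h1 => hne (Prod.ext h1 h2)
    obtain ⟨α, hα⟩ := ℓ_surj ((ℓ (Classical.arbitrary I)).1, v.1)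
    have h3 := (tt_spec α).2
    rw [hα] at h3
    have h4 := congrFun hv α
    rw [Phi_apply, h2, map_zero, add_zero, h3 h1] at h4
    exact one_ne_zero h4
  · obtain ⟨b, hb⟩ := Finsupp.ne_iff.1 h2
    have hb1 : v.2 b = 1 := by
      rcases F_cases (v.2 b) with h | h
      · exact absurd h hb
      · exact h
    set w : E := Finsupp.single 0 1 with hw
    have hw0 : w ≠ 0 := by
      rw [hw]; exact Finsupp.single_ne_zero.2 one_ne_zero
    obtain ⟨q, hq⟩ := exists_code (fun b' => if b' = b then w - v.1 else 0) {b}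
      (countable_singleton b) (fun b' hb' => by
        have : b' ≠ b := hb'
        simp [this])
    obtain ⟨α, hα⟩ := ℓ_surj (q, w)
    have h3 := (tt_spec α).2
    rw [hα] at h3
    have h4 := congrFun hv α
    have hL : L α = fun b' => if b' = b then w - v.1 else 0 := by
      unfold L
      rw [hα]
      exact hq
    have h5 : Lam α v.2 = w - v.1 := by
      unfold Lam
      rw [Finsupp.linearCombination_apply, Finsupp.sum, hL, Finset.sum_eq_single b]
      · beta_reduce
        rw [if_pos rfl, hb1, one_smul]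
      · intro b' _ hb'
        beta_reduce
        rw [if_neg hb', smul_zero]
      · intro h
        exact absurd (Finsupp.mem_support_iff.2 hb) h
    rw [Phi_apply, h5, add_sub_cancel, h3 hw0] at h4
    exact one_ne_zero h4

/-- the group -/
noncomputable abbrev G : Submodule F (I → F) := LinearMap.range Phi

/-- the element of the group given by a formal expression -/
noncomputable def el : V →ₗ[F] G := Phi.rangeRestrict

lemma el_apply (v : V) (α : I) : (el v : I → F) α = dot (tt α) (v.1 + Lam α v.2) := rfl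

lemma el_injective : Function.Injective el := fun _ _ h =>
  Phi_injective (congrArg Subtype.val h)

lemma el_surjective : Function.Surjective el := Phi.surjective_rangeRestrict

lemma F_open_eq (α : I) (c : F) : IsOpen {g : G | (g : I → F) α = c} := by
  have h1 : Continuous fun g : G => (g : I → F) α :=
    (continuous_apply α).comp continuous_subtype_val
  exact (isOpen_discrete ({c} : Set F)).preimage h1

lemma tt_ne_zero (α : I) : tt α ≠ 0 := fun h => tt_notMem α (by rw [h]; exact zero_mem _)

lemma exists_one (α : I) : ∃ g : G, (g : I → F) α = 1 ∧ g ∈ LinearMap.range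
    (el.comp (LinearMap.inl F E (B →₀ F))) := by
  obtain ⟨k, hk⟩ := Function.ne_iff.1 (tt_ne_zero α)
  refine ⟨el (Finsupp.single k 1, 0), ?_, ⟨Finsupp.single k 1, rfl⟩⟩
  rw [el_apply, map_zero, add_zero, dot_single]
  rcases F_cases (tt α k) with h | h
  · exact absurd h hk
  · exact h

/-! ### `G` is not d-independent -/

theorem not_dIndependent : ¬ DIndependent G := by
  classical
  rintro ⟨-, h⟩
  set S : Submodule F G := LinearMap.range (el.comp (LinearMap.inl F E (B →₀ F))) with hS
  have hSc : #S.toAddSubgroup < Cardinal.continuum := by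
    have h1 : #S ≤ #E := by
      have := Cardinal.mk_range_le (f := fun s : E => el (s, 0))
      refine le_trans ?_ this
      apply Cardinal.mk_le_mk_of_subset
      rintro _ ⟨s, rfl⟩
      exact ⟨s, rfl⟩
    have h2 : #E = ℵ₀ := Cardinal.mk_eq_aleph0 E
    rw [h2] at h1
    exact h1.trans_lt Cardinal.aleph0_lt_continuum
  obtain ⟨D, hDc, hDd, hDS⟩ := h S.toAddSubgroup hSc
  -- the formal version of `D`
  set D' : Submodule F V := (AddSubgroup.toZModSubmodule 2 D).comap el with hD'
  have hmem : ∀ v : V, v ∈ D' ↔ el v ∈ D := fun v => Iff.rfl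
  have hD'c : (D' : Set V).Countable := by
    have h1 : (D' : Set V) = el ⁻¹' (D : Set G) := rfl
    rw [h1]
    exact hDc.preimage_of_injOn el_injective.injOn
  set p : D' →ₗ[F] (B →₀ F) := (LinearMap.snd F E (B →₀ F)).comp D'.subtype with hp
  have hpi : Function.Injective p := by
    rw [← LinearMap.ker_eq_bot, LinearMap.ker_eq_bot']
    rintro ⟨v, hv⟩ hv2
    have hv2' : v.2 = 0 := hv2
    have h1 : el v ∈ S.toAddSubgroup ⊓ D := by
      refine ⟨⟨v.1, ?_⟩, hv⟩
      have : v = (v.1, 0) := Prod.ext rfl hv2'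
      rw [this]
      rfl
    rw [hDS, AddSubgroup.mem_bot] at h1
    have h2 : v = 0 := el_injective (by rw [h1, map_zero])
    exact Subtype.ext h2
  set e := LinearEquiv.ofInjective p hpi with he
  obtain ⟨g, hg⟩ := LinearMap.exists_extend
    (((LinearMap.fst F E (B →₀ F)).comp D'.subtype).comp e.symm.toLinearMap)
  have hgv : ∀ v ∈ D', g v.2 = v.1 := by
    intro v hv
    have h1 := LinearMap.congr_fun hg (e ⟨v, hv⟩)
    simp only [LinearMap.comp_apply, LinearEquiv.coe_coe, LinearEquiv.symm_apply_apply,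
      Submodule.subtype_apply] at h1
    exact h1
  -- the countable support
  set SB : Set B := ⋃ v ∈ (D' : Set V), (v.2.support : Set B) with hSB
  have hSBc : SB.Countable := hD'c.biUnion fun v _ => v.2.support.countable_toSet
  obtain ⟨q, hq⟩ := exists_code (fun b => if b ∈ SB then g (Finsupp.single b 1) else 0) SB hSBc
    (fun b hb => by simp [hb])
  obtain ⟨α, hα⟩ := ℓ_surj (q, 0)
  have hL : L α = fun b => if b ∈ SB then g (Finsupp.single b 1) else 0 := by
    unfold L
    rw [hα]
    exact hq
  have hLam : ∀ v ∈ D', Lam α v.2 = v.1 := by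
    intro v hv
    rw [← hgv v hv]
    have h1 : v.2 = v.2.sum fun b c => c • Finsupp.single b (1 : F) := by
      conv_lhs => rw [← Finsupp.sum_single v.2]
      apply Finsupp.sum_congr
      intro b _
      rw [Finsupp.smul_single, smul_eq_mul, mul_one]
    conv_rhs => rw [h1]
    rw [Finsupp.sum, map_sum]
    unfold Lam
    rw [Finsupp.linearCombination_apply, Finsupp.sum]
    refine Finset.sum_congr rfl fun b hb => ?_
    rw [map_smul, hL]
    have : b ∈ SB := mem_iUnion₂.2 ⟨v, hv, hb⟩
    simp only [this, if_true]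
  -- `D` is not dense
  obtain ⟨g₁, hg₁, -⟩ := exists_one α
  obtain ⟨d, hdD, hd⟩ := hDd.inter_open_nonempty _ (F_open_eq α 1) ⟨g₁, hg₁⟩
  obtain ⟨v, rfl⟩ := el_surjective d
  have h3 : (el v : I → F) α = 0 := by
    rw [el_apply, hLam v hd]
    have : v.1 + v.1 = 0 := by
      ext k
      rw [Finsupp.add_apply]
      rcases F_cases (v.1 k) with h | h <;> rw [h] <;> rfl
    rw [this, map_zero]
  have h4 : (el v : I → F) α = 1 := hdD
  rw [h3] at h4
  exact zero_ne_one h4

/-! ### `G × G` is d-independent -/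

/-- A density criterion. -/
lemma dense_of_forall (D : Submodule F (G × G))
    (h : ∀ x y : Finset I, (x.Nonempty ∨ y.Nonempty) →
      ∃ d ∈ D, ∑ α ∈ x, (d.1 : I → F) α + ∑ α ∈ y, (d.2 : I → F) α ≠ 0) :
    Dense (D : Set (G × G)) := by
  classical
  rw [dense_iff_inter_open]
  rintro U hU ⟨⟨g₁, g₂⟩, hg⟩
  obtain ⟨U₁, U₂, hU₁, hU₂, hg1, hg2, hUU⟩ := isOpen_prod_iff.1 hU g₁ g₂ hg
  obtain ⟨O₁, hO₁, rfl⟩ := isOpen_induced_iff.1 hU₁
  obtain ⟨O₂, hO₂, rfl⟩ := isOpen_induced_iff.1 hU₂
  obtain ⟨K₁, u₁, hu₁, hK₁⟩ := isOpen_pi_iff.1 hO₁ _ hg1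
  obtain ⟨K₂, u₂, hu₂, hK₂⟩ := isOpen_pi_iff.1 hO₂ _ hg2
  set K := K₁ ∪ K₂ with hK
  -- the restriction map
  let ρ : G →ₗ[F] (K → F) := (LinearMap.funLeft F F (fun k : K => (k : I))).comp G.subtype
  let T : D →ₗ[F] (K → F) × (K → F) := (ρ.prodMap ρ).comp D.subtype
  have hT : LinearMap.range T = ⊤ := by
    by_contra hne
    obtain ⟨f, hf0, hf⟩ := Submodule.exists_le_ker_of_lt_top _ (lt_top_iff_ne_top.2 hne)
    have hf1 : ∀ u v : K → F, f (u, v) = ∑ k, u k * f (Pi.single k 1, 0)
        + ∑ k, v k * f (0, Pi.single k 1) := by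
      intro u v
      have e1 := LinearMap.pi_apply_eq_sum_univ (f.comp (LinearMap.inl F (K → F) (K → F))) u
      have e2 := LinearMap.pi_apply_eq_sum_univ (f.comp (LinearMap.inr F (K → F) (K → F))) v
      have e3 : ((u, v) : (K → F) × (K → F)) = LinearMap.inl F (K → F) (K → F) u
          + LinearMap.inr F (K → F) (K → F) v := by simp
      rw [e3, map_add]
      simp only [LinearMap.comp_apply] at e1 e2
      rw [e1, e2]
      have e4 : ∀ i : K, (fun j : K => if i = j then (1 : F) else 0) = Pi.single i 1 := by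
        intro i
        funext j
        by_cases hij : i = j
        · subst hij; simp
        · rw [if_neg hij, Pi.single_eq_of_ne (Ne.symm hij)]
      simp only [e4, smul_eq_mul, LinearMap.inl_apply, LinearMap.inr_apply]
    set x : Finset I := (Finset.univ.filter fun k : K => f (Pi.single k 1, 0) = 1).map
      (Function.Embedding.subtype _) with hx
    set y : Finset I := (Finset.univ.filter fun k : K => f (0, Pi.single k 1) = 1).map
      (Function.Embedding.subtype _) with hy
    have hsum : ∀ (c : K → F) (u : I → F), ∑ k : K, u k * c k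
        = ∑ α ∈ (Finset.univ.filter fun k : K => c k = 1).map (Function.Embedding.subtype _),
          u α := by
      intro c u
      rw [Finset.sum_map, Finset.sum_filter]
      refine Finset.sum_congr rfl fun k _ => ?_
      rcases F_cases (c k) with h0 | h0 <;> simp [h0]
    have hxy : x.Nonempty ∨ y.Nonempty := by
      by_contra hcon
      push Not at hcon
      obtain ⟨hx0, hy0⟩ := hcon
      apply hf0
      apply LinearMap.ext
      rintro ⟨u, v⟩
      rw [hf1, LinearMap.zero_apply]
      have e1 := hsum (fun k => f (Pi.single k 1, 0)) (fun α => if h : α ∈ K then u ⟨α, h⟩ else 0)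
      have e2 := hsum (fun k => f (0, Pi.single k 1)) (fun α => if h : α ∈ K then v ⟨α, h⟩ else 0)
      rw [← hx, hx0, Finset.sum_empty] at e1
      rw [← hy, hy0, Finset.sum_empty] at e2
      have e3 : ∀ (w : K → F) (k : K), (if h : (k : I) ∈ K then w ⟨k, h⟩ else 0) = w k := by
        intro w k
        rw [dif_pos k.2]
      simp only [e3] at e1 e2
      rw [e1, e2, add_zero]
    obtain ⟨d, hdD, hd⟩ := h x y hxy
    apply hd
    have h1 : f (T ⟨d, hdD⟩) = 0 := by
      have : T ⟨d, hdD⟩ ∈ LinearMap.ker f := hf ⟨_, rfl⟩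
      exact this
    have h2 : T ⟨d, hdD⟩ = (fun k : K => (d.1 : I → F) k, fun k : K => (d.2 : I → F) k) := rfl
    rw [h2, hf1, hsum, hsum] at h1
    exact h1
  have hmem : (ρ g₁, ρ g₂) ∈ LinearMap.range T := by rw [hT]; exact Submodule.mem_top
  obtain ⟨⟨d, hdD⟩, hd⟩ := hmem
  refine ⟨d, hUU ⟨?_, ?_⟩, hdD⟩
  · apply hK₁
    intro k hk
    have h1 := congrFun (congrArg Prod.fst hd) ⟨k, Finset.mem_union_left _ hk⟩
    have h2 : (d.1 : I → F) k = (g₁ : I → F) k := h1
    rw [h2]
    exact (hu₁ k hk).2
  · apply hK₂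
    intro k hk
    have h1 := congrFun (congrArg Prod.snd hd) ⟨k, Finset.mem_union_right _ hk⟩
    have h2 : (d.2 : I → F) k = (g₂ : I → F) k := h1
    rw [h2]
    exact (hu₂ k hk).2

/-- the embedding of words into block `ξ` -/
noncomputable def emb (ξ : I) (j : Fin 3) : E →ₗ[F] (B →₀ F) :=
  Finsupp.lmapDomain F F fun k => (ξ, j, k)

lemma emb_apply (ξ : I) (j : Fin 3) (s : E) (k : ℕ) : emb ξ j s (ξ, j, k) = s k := by
  unfold emb
  rw [Finsupp.lmapDomain_apply]
  exact Finsupp.mapDomain_apply (fun a b h => by simpa using h) s k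

lemma emb_apply_ne (ξ : I) {j j' : Fin 3} (hj : j ≠ j') (s : E) (k : ℕ) :
    emb ξ j s (ξ, j', k) = 0 := by
  unfold emb
  rw [Finsupp.lmapDomain_apply]
  refine Finsupp.mapDomain_of_notMem_range _ _ ?_
  rintro ⟨k', hk'⟩
  simp only [Prod.mk.injEq, true_and] at hk'
  exact hj hk'.1

/-- the formal dense subgroup -/
noncomputable def Psi (ξ : I) : E × E × E →ₗ[F] V × V where
  toFun p := ((p.1, emb ξ 1 p.2.1 + emb ξ 2 p.2.2), (p.2.1 + p.2.2, emb ξ 0 p.1 + emb ξ 2 p.2.2))
  map_add' p q := by
    ext <;> simp <;> abel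
  map_smul' c p := by
    ext <;> simp

/-- the dense subgroup attached to block `ξ` -/
noncomputable def DD (ξ : I) : Submodule F (G × G) :=
  LinearMap.range ((el.prodMap el).comp (Psi ξ))

lemma DD_countable (ξ : I) : (DD ξ : Set (G × G)).Countable := by
  have : (DD ξ : Set (G × G)) = Set.range ((el.prodMap el).comp (Psi ξ)) := rfl
  rw [this]
  exact Set.countable_range _

lemma Lam_emb (α ξ : I) (j : Fin 3) (k : ℕ) :
    dot (tt α) (Lam α (emb ξ j (Finsupp.single k 1))) = rho (tt α) α ξ j k := by
  unfold emb Lam rho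
  rw [Finsupp.lmapDomain_apply, Finsupp.mapDomain_single, Finsupp.linearCombination_single,
    one_smul]

lemma sum_mem_M {α : I} {x : Finset I} (hx : ∀ β ∈ x, β < α) {u : I → R}
    (hu : ∀ β < α, u β ∈ M α) : ∑ β ∈ x, u β ∈ M α :=
  sum_mem fun β hβ => hu β (hx β hβ)

lemma DD_dense (ξ : I) : Dense (DD ξ : Set (G × G)) := by
  classical
  apply dense_of_forall
  intro x y hxy
  by_contra hcon
  push Not at hcon
  have h1 : ∑ α ∈ x, tt α + ∑ α ∈ y, rho (tt α) α ξ 0 = 0 := by
    funext k
    have := hcon _ ⟨(Finsupp.single k 1, 0, 0), rfl⟩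
    simp only [Psi, LinearMap.comp_apply, LinearMap.coe_mk, AddHom.coe_mk, LinearMap.prodMap_apply,
      el_apply, map_zero, add_zero, zero_add, dot_single, Lam_emb] at this
    rw [Pi.add_apply, Finset.sum_apply, Finset.sum_apply, Pi.zero_apply]
    exact this
  have h2 : ∑ α ∈ x, rho (tt α) α ξ 1 + ∑ α ∈ y, tt α = 0 := by
    funext k
    have := hcon _ ⟨(0, Finsupp.single k 1, 0), rfl⟩
    simp only [Psi, LinearMap.comp_apply, LinearMap.coe_mk, AddHom.coe_mk, LinearMap.prodMap_apply,
      el_apply, map_zero, add_zero, zero_add, dot_single, Lam_emb] at this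
    rw [Pi.add_apply, Finset.sum_apply, Finset.sum_apply, Pi.zero_apply]
    exact this
  have h3 : ∑ α ∈ x, rho (tt α) α ξ 2 + (∑ α ∈ y, tt α + ∑ α ∈ y, rho (tt α) α ξ 2) = 0 := by
    funext k
    have := hcon _ ⟨(0, 0, Finsupp.single k 1), rfl⟩
    simp only [Psi, LinearMap.comp_apply, LinearMap.coe_mk, AddHom.coe_mk, LinearMap.prodMap_apply,
      el_apply, map_zero, map_add, zero_add, dot_single, Lam_emb] at this
    rw [Finset.sum_add_distrib] at this
    rw [Pi.add_apply, Pi.add_apply, Finset.sum_apply, Finset.sum_apply, Finset.sum_apply,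
      Pi.zero_apply]
    exact this
  have hne : (x ∪ y).Nonempty := by
    rcases hxy with h | h
    · exact h.mono Finset.subset_union_left
    · exact h.mono Finset.subset_union_right
  set α := (x ∪ y).max' hne with hα
  have hαm : α ∈ x ∪ y := Finset.max'_mem _ _
  have hle : ∀ β ∈ x ∪ y, β ≤ α := fun β hβ => Finset.le_max' _ β hβ
  have hx : ∀ β ∈ x.erase α, β < α := fun β hβ =>
    lt_of_le_of_ne (hle β (Finset.mem_union_left _ (Finset.mem_of_mem_erase hβ)))
      (Finset.ne_of_mem_erase hβ)
  have hy : ∀ β ∈ y.erase α, β < α := fun β hβ =>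
    lt_of_le_of_ne (hle β (Finset.mem_union_right _ (Finset.mem_of_mem_erase hβ)))
      (Finset.ne_of_mem_erase hβ)
  have htm : ∀ β < α, tt β ∈ M α := fun β hβ => tt_mem hβ
  have hrm : ∀ j, ∀ β < α, rho (tt β) β ξ j ∈ M α := fun j β hβ => rho_mem hβ ξ j
  apply tt_notMem α
  by_cases hax : α ∈ x
  · by_cases hay : α ∈ y
    · rw [← Finset.add_sum_erase x _ hax, ← Finset.add_sum_erase y (fun α => tt α) hay,
        ← Finset.add_sum_erase y (fun α => rho (tt α) α ξ 2) hay] at h3
      have e : tt α = -(∑ β ∈ x.erase α, rho (tt β) β ξ 2 + ∑ β ∈ y.erase α, tt β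
          + ∑ β ∈ y.erase α, rho (tt β) β ξ 2) - (rho (tt α) α ξ 2 + rho (tt α) α ξ 2) := by
        rw [eq_sub_iff_add_eq, eq_neg_iff_add_eq_zero, ← h3]
        abel
      have e2 : rho (tt α) α ξ 2 + rho (tt α) α ξ 2 = 0 := by
        funext k
        rw [Pi.add_apply]
        rcases F_cases (rho (tt α) α ξ 2 k) with h | h <;> rw [h] <;> rfl
      rw [e2, sub_zero] at e
      rw [e]
      exact neg_mem (add_mem (add_mem (sum_mem_M hx (hrm 2)) (sum_mem_M hy htm))
        (sum_mem_M hy (hrm 2)))
    · have hy' : ∀ β ∈ y, β < α := fun β hβ =>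
        lt_of_le_of_ne (hle β (Finset.mem_union_right _ hβ)) (fun h => hay (h ▸ hβ))
      rw [← Finset.add_sum_erase x (fun α => tt α) hax] at h1
      have e : tt α = -(∑ β ∈ x.erase α, tt β + ∑ β ∈ y, rho (tt β) β ξ 0) := by
        rw [eq_neg_iff_add_eq_zero, ← h1]
        abel
      rw [e]
      exact neg_mem (add_mem (sum_mem_M hx htm) (sum_mem_M hy' (hrm 0)))
  · have hay : α ∈ y := by
      rcases Finset.mem_union.1 hαm with h | h
      · exact absurd h hax
      · exact h
    have hx' : ∀ β ∈ x, β < α := fun β hβ =>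
      lt_of_le_of_ne (hle β (Finset.mem_union_left _ hβ)) (fun h => hax (h ▸ hβ))
    rw [← Finset.add_sum_erase y (fun α => tt α) hay] at h2
    have e : tt α = -(∑ β ∈ x, rho (tt β) β ξ 1 + ∑ β ∈ y.erase α, tt β) := by
      rw [eq_neg_iff_add_eq_zero, ← h2]
      abel
    rw [e]
    exact neg_mem (add_mem (sum_mem_M hx' (hrm 1)) (sum_mem_M hy htm))

theorem square_dIndependent : DIndependent (G × G) := by
  classical
  obtain ⟨g, hg, -⟩ := exists_one (Classical.arbitrary I)
  have hg0 : g ≠ 0 := by
    rintro rfl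
    exact zero_ne_one hg
  refine ⟨⟨(g, 0), 0, fun h => hg0 (congrArg Prod.fst h)⟩, fun S hS => ?_⟩
  -- formal expressions
  choose c hc using el_surjective
  set P : Set I := ⋃ s : S, (⋃ b ∈ (c (s : G × G).1).2.support ∪ (c (s : G × G).2).2.support,
    {b.1}) with hP
  have hPc : #P < Cardinal.continuum := by
    have h1 : #P ≤ Cardinal.sum fun s : S =>
        #(⋃ b ∈ (c (s : G × G).1).2.support ∪ (c (s : G × G).2).2.support, {b.1} : Set I) :=
      Cardinal.mk_iUnion_le_sum_mk
    have h2 : (Cardinal.sum fun s : S =>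
        #(⋃ b ∈ (c (s : G × G).1).2.support ∪ (c (s : G × G).2).2.support, {b.1} : Set I))
        ≤ Cardinal.sum (fun _ : S => ℵ₀) := by
      refine Cardinal.sum_le_sum _ _ fun s => ?_
      rw [Cardinal.le_aleph0_iff_set_countable]
      exact Set.Countable.biUnion (Finset.countable_toSet _) fun b _ => countable_singleton _
    rw [Cardinal.sum_const'] at h2
    refine (h1.trans h2).trans_lt ?_
    exact Cardinal.mul_lt_of_lt Cardinal.aleph0_le_continuum hS Cardinal.aleph0_lt_continuum
  obtain ⟨ξ, hξ⟩ : ∃ ξ : I, ξ ∉ P := by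
    by_contra hcon
    push Not at hcon
    have : P = Set.univ := eq_univ_of_forall hcon
    rw [this, Cardinal.mk_univ, mk_I] at hPc
    exact lt_irrefl _ hPc
  have hzero : ∀ s : S, ∀ j k, (c (s : G × G).1).2 (ξ, j, k) = 0 ∧
      (c (s : G × G).2).2 (ξ, j, k) = 0 := by
    intro s j k
    constructor
    · by_contra hne
      apply hξ
      exact mem_iUnion.2 ⟨s, mem_iUnion₂.2 ⟨(ξ, j, k),
        Finset.mem_union_left _ (Finsupp.mem_support_iff.2 hne), rfl⟩⟩
    · by_contra hne
      apply hξ
      exact mem_iUnion.2 ⟨s, mem_iUnion₂.2 ⟨(ξ, j, k),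
        Finset.mem_union_right _ (Finsupp.mem_support_iff.2 hne), rfl⟩⟩
  refine ⟨(DD ξ).toAddSubgroup, DD_countable ξ, DD_dense ξ, ?_⟩
  rw [eq_bot_iff]
  rintro d ⟨hdS, ⟨p, hp⟩⟩
  rw [AddSubgroup.mem_bot]
  obtain ⟨hz1, hz2⟩ : (∀ j k, (Psi ξ p).1.2 (ξ, j, k) = 0) ∧
      (∀ j k, (Psi ξ p).2.2 (ξ, j, k) = 0) := by
    have e1 : (Psi ξ p).1 = c d.1 := el_injective (by
      rw [hc, ← hp]; rfl)
    have e2 : (Psi ξ p).2 = c d.2 := el_injective (by
      rw [hc, ← hp]; rfl)
    constructor
    · intro j k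
      rw [e1]
      exact (hzero ⟨d, hdS⟩ j k).1
    · intro j k
      rw [e2]
      exact (hzero ⟨d, hdS⟩ j k).2
  have hp0 : p = 0 := by
    obtain ⟨β, γ, δ⟩ := p
    have hγ : γ = 0 := by
      ext k
      have := hz1 1 k
      simp only [Psi, LinearMap.coe_mk, AddHom.coe_mk, Finsupp.add_apply, emb_apply] at this
      rw [emb_apply_ne ξ (by decide), add_zero] at this
      exact this
    have hδ : δ = 0 := by
      ext k
      have := hz1 2 k
      simp only [Psi, LinearMap.coe_mk, AddHom.coe_mk, Finsupp.add_apply, emb_apply] at this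
      rw [emb_apply_ne ξ (by decide), zero_add] at this
      exact this
    have hβ : β = 0 := by
      ext k
      have := hz2 0 k
      simp only [Psi, LinearMap.coe_mk, AddHom.coe_mk, Finsupp.add_apply, emb_apply] at this
      rw [emb_apply_ne ξ (by decide), add_zero] at this
      exact this
    rw [hβ, hγ, hδ]
    rfl
  rw [← hp, hp0, map_zero]

/-- **Main theorem.** There is a Hausdorff topological abelian group `G` such that `G × G` is
d-independent but `G` is not. -/
theorem result : ∃ (G : Type) (_ : AddCommGroup G) (_ : TopologicalSpace G),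
    IsTopologicalAddGroup G ∧ T2Space G ∧ DIndependent (G × G) ∧ ¬ DIndependent G :=
  ⟨G, inferInstance, inferInstance, inferInstance, inferInstance, square_dIndependent,
    not_dIndependent⟩

end Pool.Agent.Results.MP_23f360_gt.SquareNotEnough
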